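import Pool.Agent.P.MP_ea54b6_co.Main
import Pool.Agent.P.MP_ea54b6_co.Hyp

/-!
Exactly `m`-coloured complete subgraphs of complete uniform hypergraphs, finite or infinite.
-/

set_option autoImplicit false

namespace Pool.Agent.Results.MP_ea54b6_co.Hypergraphs

open P.MP_ea54b6_co

theorem result :
    ∀ (V : Type) [Infinite V] (r c m : ℕ) (κ : ℕ∞), 2 ≤ r → 1 ≤ m → m ≤ c →
      ((2 * c + r : ℕ) : ℕ∞) ≤ κ →
      ((∀ f : {s : Finset V // s.card = r} → Fin c, Function.Surjective f →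
          ∃ S : Set V, κ ≤ S.encard ∧ (f '' {s | (s.1 : Set V) ⊆ S}).ncard = m) ↔
        (m = 1 ∨ m = 2 ∨ m = c)) := by
  intro V _ r c m κ hr h1 h2 hκ
  constructor
  · intro H
    by_contra hc
    obtain ⟨C, rfl⟩ : ∃ C, c = C + 1 := ⟨c - 1, by omega⟩
    obtain ⟨M, rfl⟩ : ∃ M, m = M + 1 := ⟨m - 1, by omega⟩
    obtain ⟨f, hf, hS⟩ := Hyp.counter (V := V) hr (good_all M C (by omega) (by omega))
    obtain ⟨S, h3, h4⟩ := H (fun s => f s.1) fun k => by
      obtain ⟨s, -, a, b⟩ := hf.ge (Set.mem_univ k)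
      exact ⟨⟨s, a⟩, b⟩
    refine hS S ((Nat.cast_le.2 (by omega)).trans (hκ.trans h3)) (h4 ▸ congrArg Set.ncard ?_)
    exact Set.ext fun x => ⟨fun ⟨s, a, b, q⟩ => ⟨⟨s, b⟩, a, q⟩, fun ⟨s, a, q⟩ => ⟨s.1, a, s.2, q⟩⟩
  · intro hm f hf
    let g : Finset V → Fin c := fun s => if q : s.card = r then f ⟨s, q⟩ else ⟨0, by omega⟩
    have e : ∀ S : Set V, f '' {s | (s.1 : Set V) ⊆ S} = Hyp.seen r g S := fun S =>
      Set.ext fun x => ⟨fun ⟨s, a, q⟩ => ⟨s.1, a, s.2, (dif_pos s.2).trans q⟩,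
        fun ⟨s, a, b, q⟩ => ⟨⟨s, b⟩, a, (dif_pos b).symm.trans q⟩⟩
    suffices h : ∃ S : Set V, S.Infinite ∧ (Hyp.seen r g S).ncard = m by
      obtain ⟨S, a, b⟩ := h
      exact ⟨S, a.encard_eq ▸ le_top, e S ▸ b⟩
    rcases hm with rfl | rfl | rfl
    · exact Hyp.one r g
    · refine Hyp.two r g fun x => ?_
      have : Nontrivial (Fin c) := Fin.nontrivial_iff_two_le.2 h2
      obtain ⟨y, hy⟩ := exists_ne x
      obtain ⟨s, rfl⟩ := hf y
      exact ⟨s.1, s.2, fun q => hy ((dif_pos s.2).symm.trans q)⟩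
    · refine ⟨Set.univ, Set.infinite_univ, ?_⟩
      rw [← e, show {s : {s : Finset V // s.card = r} | (s.1 : Set V) ⊆ Set.univ} = Set.univ from
        Set.eq_univ_of_forall fun _ => Set.subset_univ _, Set.image_univ_of_surjective hf,
        Set.ncard_univ, Nat.card_eq_fintype_card, Fintype.card_fin]

end Pool.Agent.Results.MP_ea54b6_co.Hypergraphs
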